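import Pool.Agent.V11151.DD.Pos
import Pool.Agent.V11151.DD.Z
import Pool.Agent.V11151.DD.Inc

/-!
# Outerplanar graphs have bounded distance number

Every finite outerplanar graph has a straight-line drawing in the plane, with its vertices at
distinct points, in which no vertex lies in the relative interior of an edge and the edges have at
most 21 different lengths.

Construction.  The infinite triangulation in which every edge lies in two triangles is drawn with
rhombi having sides `x_k` and `± x_(k+1)`, cut by the diagonal of length `|x_k - x_(k+1)|`, where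
`x_k = z ^ (e_k)`, `z` is transcendental with `|z| = 1` and the differences `e_(k+1) - e_k` are
powers of a large number `B` with exponents given by an infinite word on 20 letters.  The word
interleaves two copies of an abelian square free word on ten letters, a fixed point of a morphism
with images of length 13 found by computer; hence `e_i + e_j = 2 e_k` only for `i = j = k` and
`e_i + e_j = e_k + e_(k+1)` only for `{i, j} = {k, k + 1}`, which excludes all incidences.
-/

open Polynomial

namespace Pool.Agent.Results.MP_4dd93e_co.BoundedDistanceNumber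

universe u

/-- `G` is outerplanar: it has a plane straight-line drawing with its vertices at distinct points
of the unit circle, edges without a common end being disjoint chords. -/
def Outerplanar {V : Type u} (G : SimpleGraph V) : Prop :=
  ∃ p : V → EuclideanSpace ℝ (Fin 2), Function.Injective p ∧ (∀ v, ‖p v‖ = 1) ∧
    ∀ a b c d, G.Adj a b → G.Adj c d → a ≠ c → a ≠ d → b ≠ c → b ≠ d →
      Disjoint (segment ℝ (p a) (p b)) (segment ℝ (p c) (p d))

/-- `p` is a drawing of `G`: the vertices are distinct points and no vertex lies in the relative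
interior of an edge. -/
def IsDrawing {V : Type u} (G : SimpleGraph V) (p : V → EuclideanSpace ℝ (Fin 2)) : Prop :=
  Function.Injective p ∧ ∀ v w x, G.Adj v w → p x ∉ openSegment ℝ (p v) (p w)

/-- The set of edge lengths of the drawing `p` of `G`. -/
def edgeLengths {V : Type u} (G : SimpleGraph V) (p : V → EuclideanSpace ℝ (Fin 2)) : Set ℝ :=
  {x | ∃ v w, G.Adj v w ∧ x = dist (p v) (p w)}

/-- The distance number of a finite graph. -/
noncomputable def dn {V : Type u} (G : SimpleGraph V) : ℕ :=
  sInf {k | ∃ p : V → EuclideanSpace ℝ (Fin 2), IsDrawing G p ∧ (edgeLengths G p).ncard = k}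

/-- Every finite outerplanar graph has a drawing whose edge lengths form a set of at most 21
elements; in particular its distance number is at most 21. -/
theorem result (V : Type u) [Finite V] (G : SimpleGraph V) (hG : Outerplanar G) :
    (∃ p : V → EuclideanSpace ℝ (Fin 2), IsDrawing G p ∧ (edgeLengths G p).Finite ∧
      (edgeLengths G p).ncard ≤ 21) ∧ dn G ≤ 21 := by
  classical
  haveI := Fintype.ofFinite V
  obtain ⟨F, hF, hE⟩ := V11151.DD.positions (G := G) hG
  obtain ⟨z, hz, ht⟩ := V11151.DD.exists_z
  let L : ℕ := ∑ v, (F v).natDegree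
  let B : ℕ := 2 * L + 1
  have hB : 2 * L < B := Nat.lt_succ_self _
  have hdeg : ∀ v j, L < j → (F v).coeff j = 0 := by
    intro v j hj
    apply coeff_eq_zero_of_natDegree_lt
    refine lt_of_le_of_lt ?_ hj
    exact Finset.single_le_sum (f := fun v => (F v).natDegree) (fun _ _ => Nat.zero_le _)
      (Finset.mem_univ v)
  let p : V → EuclideanSpace ℝ (Fin 2) := fun v => V11151.DD.toE (V11151.DD.phi z B L (F v))
  have hp : IsDrawing G p := by
    refine ⟨fun a b hab => hF (V11151.DD.phi_inj hz ht hB (hdeg a) (hdeg b)
      (V11151.DD.toE_inj hab)), ?_⟩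
    rintro v w x hvw ⟨a, b, ha, hb, hab, hx⟩
    obtain ⟨R, hR⟩ := hE v w hvw
    refine V11151.DD.no_incidence hz ht hB (V := F x) hR (hdeg v) (hdeg w) hb (by linarith) ?_
    apply V11151.DD.toE_inj
    show p x = _
    rw [← hx]
    have ha' : a = 1 - b := by linarith
    ext i
    simp only [PiLp.add_apply, PiLp.smul_apply, smul_eq_mul, ha', p]
    fin_cases i
    · simp [V11151.DD.toE]; ring
    · simp [V11151.DD.toE]; ring
  have hsub : edgeLengths G p ⊆
      ↑(insert (1 : ℝ) ((Finset.range 20).image (fun c => ‖1 - z ^ (B ^ c)‖))) := by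
    rintro x ⟨v, w, hvw, rfl⟩
    obtain ⟨R, hR⟩ := hE v w hvw
    have h1 := V11151.DD.edge_length hz (B := B) hR (hdeg v) (hdeg w)
    simp only [Finset.coe_insert, Finset.coe_image, Finset.coe_range, Set.mem_insert_iff,
      Set.mem_image, Set.mem_Iio]
    show dist (V11151.DD.toE _) (V11151.DD.toE _) = 1 ∨
      ∃ c, c < 20 ∧ _ = dist (V11151.DD.toE _) (V11151.DD.toE _)
    rw [V11151.DD.dist_toE]
    rcases h1 with h1 | ⟨c, hc, h1⟩
    · left; exact h1
    · right; exact ⟨c, hc, h1.symm⟩
  have hfin : (edgeLengths G p).Finite := (Finset.finite_toSet _).subset hsub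
  have hcard : (edgeLengths G p).ncard ≤ 21 := by
    refine (Set.ncard_le_ncard hsub (Finset.finite_toSet _)).trans ?_
    rw [Set.ncard_coe_finset]
    refine (Finset.card_insert_le _ _).trans ?_
    have := Finset.card_image_le (s := Finset.range 20) (f := fun c => ‖1 - z ^ (B ^ c)‖)
    rw [Finset.card_range] at this
    omega
  have hmem : (edgeLengths G p).ncard ∈
      {k | ∃ p : V → EuclideanSpace ℝ (Fin 2), IsDrawing G p ∧
        (edgeLengths G p).ncard = k} := ⟨_, hp, rfl⟩
  exact ⟨⟨_, hp, hfin, hcard⟩, (Nat.sInf_le hmem).trans hcard⟩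

end Pool.Agent.Results.MP_4dd93e_co.BoundedDistanceNumber
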